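import Mathlib
import Pool.Agent.H668R3.NcInt.Defs
import Pool.Agent.H668R3.NcInt.Ex5
import Pool.Agent.H668R3.NcInt.Om

/-!
# The noncommutative integral need not be normal on the bicommutant

There is a spectral triple `(A, H, D)` with `⟨D⟩^{-1}` in `M_{1,∞}` for which the bicommutant `A''`
contains no nonzero operator of finite rank (it is even a maximal abelian von Neumann algebra
without minimal projections), but for every Dixmier trace `Tr_ω` the functional
`S ↦ Tr_ω(S ⟨D⟩^{-1})` is not normal on `A''`.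

Here `H = ℓ²(ℕ × Finset ℕ)`, `D e_(j,s) = (j+1) 4^l(s) e_(j,s)` with `l(s) = max s + 1`
(`l(∅) = 0`), and `A` is generated by the operators `e_(i,s) ↦ δ_ij e_(j, s ∆ t)`.
-/

set_option autoImplicit false

open Filter Topology
open scoped InnerProductSpace ComplexOrder

namespace Pool.Agent.Results.MP_9105af_an.NotNormal

open Pool.Agent.H668R3.NcInt

theorem separable_L2 : TopologicalSpace.SeparableSpace (L2 Ix) := by
  rw [← TopologicalSpace.isSeparable_univ_iff]
  have h1 : TopologicalSpace.IsSeparable (Set.range (fun p : Ix => (e p : L2 Ix))) :=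
    (Set.countable_range _).isSeparable
  have h2 := (h1.span (R := ℂ)).closure
  refine h2.mono fun x _ => ?_
  refine mem_closure_of_tendsto (hasSum_e x) (Filter.Eventually.of_forall fun s => ?_)
  exact Submodule.sum_mem _ fun i _ => Submodule.smul_mem _ _ (Submodule.subset_span ⟨i, rfl⟩)

/-- There are a separable Hilbert space `H`, a spectral triple `T = (A, H, D)` and `n > 0` such that
`n` is the smallest value with `⟨D⟩^{-p}` trace class for all `p > n`, `⟨D⟩^{-n}` lies in `M_{1,∞}`,
`A''` contains no nonzero finite rank operator, is maximal abelian and has no minimal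
projections, dilation invariant generalised limits `ω` exist, and for every such `ω` the
functional `Φ_ω(S) = Tr_ω(S ⟨D⟩^{-n})` is not normal on `A''`. -/
theorem result :
    ∃ (H : Type) (_ : NormedAddCommGroup H) (_ : InnerProductSpace ℂ H) (_ : CompleteSpace H)
      (_ : TopologicalSpace.SeparableSpace H) (T : SpectralTriple H) (n : ℝ),
      0 < n ∧ T.IsDim n ∧ T.PowMemM1inf n ∧ T.NoFiniteRank ∧ T.MaximalAbelian ∧
      T.NoMinimalProjection ∧ (∃ ω : (ℕ → ℝ) → ℝ, IsDilationLimit ω) ∧
      ∀ ω : (ℕ → ℝ) → ℝ, IsDilationLimit ω → ¬ T.PhiNormal n ω := by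
  refine ⟨L2 Ix, inferInstance, inferInstance, inferInstance, separable_L2, ST, 1, one_pos, isDim,
    memM1, ?_, ?_, ?_, ⟨om, om_isDilationLimit⟩, not_normal⟩
  · intro F hF k hfin
    rw [bicomm_eq] at hF
    exact no_finite_rank hF hfin.1
  · unfold SpectralTriple.MaximalAbelian
    have h : Set.centralizer (Set.centralizer (ST.A : Set (L2 Ix →L[ℂ] L2 Ix))) =
      Set.centralizer (ST.A : Set (L2 Ix →L[ℂ] L2 Ix)) := bicomm_eq
    change Set.centralizer (Set.centralizer (ST.A : Set (L2 Ix →L[ℂ] L2 Ix))) = Set.centralizer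
      (Set.centralizer (Set.centralizer (ST.A : Set (L2 Ix →L[ℂ] L2 Ix))))
    rw [h, h]
  · intro P hP hp
    rw [bicomm_eq] at hP ⊢
    obtain ⟨Q, hQ, h1, h2, h3, h4⟩ := no_minimal hP hp.1 hp.2
    exact ⟨Q, hQ, ⟨h1, h3⟩, h2, h4⟩

end Pool.Agent.Results.MP_9105af_an.NotNormal
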